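import Pool.Agent.H159R3.Exp.BLV

/-!
From entire curves of exponential type outside `V'` to curves over number fields outside `V'`.
-/

set_option autoImplicit false

namespace Pool.Agent.W235.RM

open Filter MvPolynomial IsDedekindDomain Pool.Agent.H159R3.NV Pool.Agent.H159R3.Exp
open scoped NumberField Topology

/-- The data of a nonconstant curve with Laurent coordinates over a number field, which lies in
`V` and not in `V'`. -/
def HasLaurent {K : Type} [Field K] {ι κ : Type} {n : ℕ} (F : ι → MvPolynomial (Fin n) (𝓞 K))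
    (G : κ → MvPolynomial (Fin n) (𝓞 K)) : Prop :=
  ∃ (L : Type) (_ : Field L) (_ : NumberField L) (_ : Algebra K L) (v : L → Fin n → L),
    (∀ j, Laur fun t => v t j) ∧
    (∀ i t, t ≠ 0 → eval₂ ((algebraMap K L).comp (algebraMap (𝓞 K) K)) (v t) (F i) = 0) ∧
    (∃ l, eval₂ ((algebraMap K L).comp (algebraMap (𝓞 K) K)) (v 1) (G l) ≠ 0) ∧
    ∃ (k : ℕ) (j : Fin n), v (2 ^ k) j ≠ v 1 j

theorem hasLaurent_of_exp {K : Type} [Field K] [NumberField K] {ι κ : Type} {n : ℕ}
    (F : ι → MvPolynomial (Fin n) (𝓞 K)) (G : κ → MvPolynomial (Fin n) (𝓞 K))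
    (σ : K →+* ℂ) (h0 : ¬ ExpCurvesIn σ F G) : HasLaurent F G := by
  classical
  unfold ExpCurvesIn at h0
  push Not at h0
  obtain ⟨f0, hf0, hfF0, hnc0, zG, i', hG⟩ := h0
  obtain ⟨hf0d, h, hh, hhc, hf⟩ := hf0
  set φ : 𝓞 K →+* ℂ := σ.comp (algebraMap (𝓞 K) K) with hφ
  -- replace the curve by a composition
  set f : ℂ → Fin n → ℂ := fun z => f0 (h z) with hfdef
  have hfd : Differentiable ℂ f := hf0d.comp hh
  have hfF : ∀ z i, eval₂ φ (f z) (F i) = 0 := fun z i => hfF0 (h z) i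
  obtain ⟨z2, hz2⟩ : ∃ z, eval₂ φ (f z) (G i') ≠ 0 := by
    have h1 := comp_ne (F := fun z => eval (f0 z) (map φ (G i'))) (differentiable_eval hf0d _)
      ⟨zG, by rw [← eval₂_eq_eval_map]; exact hG⟩ hh hhc
    obtain ⟨z, hz⟩ := h1
    exact ⟨z, by rw [eval₂_eq_eval_map]; exact hz⟩
  have hfj : ∀ j, Differentiable ℂ (fun z => f z j) := fun j => by
    rw [differentiable_pi] at hfd
    exact hfd j
  obtain ⟨j1, hj1⟩ : ∃ j, ∃ z, deriv (fun z => f z j) z ≠ 0 := by
    obtain ⟨z, w, hzw⟩ := hnc0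
    obtain ⟨j, hj⟩ := Function.ne_iff.mp hzw
    have h1 : Differentiable ℂ (fun z => f0 z j) := by
      rw [differentiable_pi] at hf0d
      exact hf0d j
    obtain ⟨a, ha⟩ := comp_ne (F := fun y => f0 y j - f0 (h 0) j) (h1.sub_const _) (by
      by_contra hcon
      push Not at hcon
      exact hj ((sub_eq_zero.mp (hcon z)).trans (sub_eq_zero.mp (hcon w)).symm)) hh hhc
    refine ⟨j, ?_⟩
    by_contra hcon
    push Not at hcon
    apply ha
    rw [sub_eq_zero]
    exact is_const_of_deriv_eq_zero (hfj j) hcon a 0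
  obtain ⟨zd, hzd⟩ := hj1
  have hdj : Differentiable ℂ (deriv (fun z => f z j1)) :=
    ((hfj j1).contDiff (n := 2)).differentiable_deriv_two
  have hGd : Differentiable ℂ (fun z => eval₂ φ (f z) (G i')) := by
    have : (fun z => eval₂ φ (f z) (G i')) = fun z => eval (f z) (map φ (G i')) :=
      funext fun z => eval₂_eq_eval_map _ _ _
    rw [this]
    exact differentiable_eval hfd _
  obtain ⟨z0, hz0, hz0G⟩ := ((ev_ne hdj hzd 0).and (ev_ne hGd hz2 0)).exists
  obtain ⟨v, hv, hv1, ⟨k1, hk1⟩, hvF⟩ := rational_curve f hf (Pi.single j1 1) z0 (by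
    have : (fun z => ∑ j, (Pi.single j1 1 : Fin n → ℂ) j * f z j) = fun z => f z j1 := by
      funext z
      rw [Finset.sum_eq_single j1]
      · simp
      · intro j _ hj
        simp [hj]
      · simp
    rw [this]
    exact hz0)
  have hsum : ∀ t, ∑ j, (Pi.single j1 1 : Fin n → ℂ) j * v t j = v t j1 := by
    intro t
    rw [Finset.sum_eq_single j1]
    · simp
    · intro j _ hj
      simp [hj]
    · simp
  rw [hsum, hsum] at hk1
  -- descend
  let _ := σ.toAlgebra
  let FK : ι → MvPolynomial (Fin n) K := fun i => map (algebraMap (𝓞 K) K) (F i)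
  have hmap : ∀ (M : Type) [Field M] [Algebra K M] (y : Fin n → M)
      (p : MvPolynomial (Fin n) (𝓞 K)), aeval y (map (algebraMap (𝓞 K) K) p)
        = eval₂ ((algebraMap K M).comp (algebraMap (𝓞 K) K)) y p := by
    intro M _ _ y p
    rw [aeval_def, eval₂_map]
  obtain ⟨L, _, _, hNF, -, v', hv', hv'F, hv'W⟩ := descend FK
    (rename Sum.inl (map (algebraMap (𝓞 K) K) (G i')) * (X (Sum.inr j1) - X (Sum.inl j1))) v hv
    (fun i t ht => by
      rw [hmap ℂ]
      change eval₂ φ (v t) (F i) = 0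
      rw [eval₂_eq_eval_map]
      apply hvF _ _ t ht
      intro z
      rw [← eval₂_eq_eval_map]
      exact hfF z i) k1 (by
    rw [map_mul, aeval_rename, map_sub, aeval_X, aeval_X]
    simp only [Sum.elim_comp_inl, Sum.elim_inr, Sum.elim_inl]
    rw [hmap ℂ, hv1]
    rw [hv1] at hk1
    exact mul_ne_zero hz0G (sub_ne_zero.mpr hk1))
  rw [map_mul, aeval_rename, map_sub, aeval_X, aeval_X] at hv'W
  simp only [Sum.elim_comp_inl, Sum.elim_inr, Sum.elim_inl] at hv'W
  refine ⟨L, inferInstance, hNF, inferInstance, v', hv', fun i t ht => ?_, ⟨i', ?_⟩, k1, j1, ?_⟩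
  · rw [← hmap L]
    exact hv'F i t ht
  · rw [← hmap L]
    exact left_ne_zero_of_mul hv'W
  · exact sub_ne_zero.mp (right_ne_zero_of_mul hv'W)

end Pool.Agent.W235.RM
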