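import Pool.Agent.W235.RM.Indep
import Pool.Agent.W235.RM.Curve

/-!
Interpolation of linear recurrences by entire functions of exponential type.
-/

set_option autoImplicit false

namespace Pool.Agent.W235.RM

open Polynomial Pool.Agent.H159R3.Exp

/-- common closed form -/
theorem exists_closed {n : ℕ} (u : ℕ → Fin n → ℂ) (hu : ∀ j, IsLinRec fun k => u k j) :
    ∃ (k₀ : ℕ) (Γ : Finset ℂ) (q : Fin n → ℂ → ℂ[X]), (0 : ℂ) ∉ Γ ∧
      ∀ k, k₀ ≤ k → ∀ j, u k j = ∑ γ ∈ Γ, (q j γ).eval (k : ℂ) * γ ^ k := by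
  classical
  have h1 : ∀ j, CF fun k => u k j := fun j => (hu j).cf
  choose k₀ Γ q h0 h using h1
  refine ⟨Finset.univ.sup k₀, Finset.univ.biUnion Γ, fun j γ => if γ ∈ Γ j then q j γ else 0, ?_,
    fun k hk j => ?_⟩
  · intro hcon
    obtain ⟨j, _, hj⟩ := Finset.mem_biUnion.mp hcon
    exact h0 j hj
  · have h2 := h j k ((Finset.le_sup (Finset.mem_univ j)).trans hk)
    simp only at h2
    rw [h2, ← Finset.sum_subset (Finset.subset_biUnion_of_mem Γ (Finset.mem_univ j))]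
    · refine Finset.sum_congr rfl fun γ hγ => ?_
      simp only [if_pos hγ]
    · intro γ _ hγ
      simp [if_neg hγ]

/-- interpolation of linear recurrences along arithmetic progressions -/
theorem interp {n : ℕ} (u : ℕ → Fin n → ℂ) (hu : ∀ j, IsLinRec fun k => u k j) :
    ∃ M k₀ : ℕ, 1 ≤ M ∧ ∀ c : ℕ, ∃ U : ℂ → Fin n → ℂ, ExpPoly U ∧ Differentiable ℂ U ∧
      (∀ k : ℕ, k₀ ≤ k → U k = u (M * k + c)) ∧
      ∀ Q : MvPolynomial (Fin n) ℂ, (∀ k : ℕ, k₀ ≤ k → MvPolynomial.eval (u (M * k + c)) Q = 0) →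
        ∀ ζ, MvPolynomial.eval (U ζ) Q = 0 := by
  classical
  obtain ⟨k₀, Γ, q, h0, h⟩ := exists_closed u hu
  obtain ⟨Λ, hΛ⟩ := Submodule.exists_isCompl (Submodule.span ℚ {(2 * Real.pi * Complex.I : ℂ)})
  -- logarithms in Λ
  have hlog : ∀ γ : ℂ, ∃ (μ : ℂ) (r : ℚ), μ ∈ Λ ∧
      (γ ≠ 0 → Complex.exp (μ + r * (2 * Real.pi * Complex.I)) = γ) := by
    intro γ
    have h1 : Complex.log γ ∈ Submodule.span ℚ {(2 * Real.pi * Complex.I : ℂ)} ⊔ Λ := by
      rw [hΛ.sup_eq_top]
      trivial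
    obtain ⟨y, hy, μ, hμ, hyμ⟩ := Submodule.mem_sup.mp h1
    obtain ⟨r, hr⟩ := Submodule.mem_span_singleton.mp hy
    refine ⟨μ, r, hμ, fun hγ => ?_⟩
    have h2 : μ + r * (2 * Real.pi * Complex.I) = Complex.log γ := by
      rw [← hyμ, ← hr, Rat.smul_def]
      ring
    rw [h2, Complex.exp_log hγ]
  choose μ r hμ hlog using hlog
  set M : ℕ := ∏ γ ∈ Γ, (r γ).den with hMdef
  have hM : 1 ≤ M := Nat.one_le_iff_ne_zero.mpr
    (Finset.prod_ne_zero_iff.mpr fun γ _ => (r γ).den_nz)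
  have hexp : ∀ γ ∈ Γ, Complex.exp (M * μ γ) = γ ^ M := by
    intro γ hγ
    have hγ0 : γ ≠ 0 := by
      rintro rfl
      exact h0 hγ
    obtain ⟨e, he⟩ : (r γ).den ∣ M := Finset.dvd_prod_of_mem _ hγ
    have h1 : (M : ℂ) * (r γ : ℂ) = ((e * (r γ).num : ℤ) : ℂ) := by
      have h2 : (M : ℚ) * r γ = ((e * (r γ).num : ℤ) : ℚ) := by
        rw [he]
        push_cast
        have := Rat.mul_den_eq_num (r γ)
        linear_combination (e : ℚ) * this
      exact_mod_cast congrArg (fun x : ℚ => (x : ℂ)) h2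
    have h3 := hlog γ hγ0
    have h4 : γ ^ M = Complex.exp (M * (μ γ + r γ * (2 * Real.pi * Complex.I))) := by
      rw [Complex.exp_nat_mul, h3]
    rw [h4, mul_add, Complex.exp_add, ← mul_assoc, h1, Complex.exp_int_mul_two_pi_mul_I, mul_one]
  refine ⟨M, k₀, hM, fun c => ?_⟩
  let U : ℂ → Fin n → ℂ := fun ζ j => ∑ γ ∈ Γ,
    ((q j γ).comp (C (M : ℂ) * X + C (c : ℂ)) * C (γ ^ c)).eval ζ * Complex.exp (M * μ γ * ζ)
  have hNF : ∀ j, NF M Λ fun ζ => U ζ j := fun j =>
    NF.sum _ _ fun γ _ => NF.single _ _ (hμ γ)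
  have hUk : ∀ k : ℕ, k₀ ≤ k → U k = u (M * k + c) := by
    intro k hk
    funext j
    have hk' : k₀ ≤ M * k + c := by nlinarith
    rw [h _ hk' j]
    refine Finset.sum_congr rfl fun γ hγ => ?_
    have e1 : Complex.exp (M * μ γ * k) = (γ ^ M) ^ k := by
      rw [← hexp γ hγ, ← Complex.exp_nat_mul]
      congr 1
      ring
    rw [e1, eval_mul, eval_comp, eval_C, pow_add, pow_mul]
    simp only [eval_add, eval_mul, eval_C, eval_X]
    push_cast
    ring
  have hdiff : Differentiable ℂ U := by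
    rw [differentiable_pi]
    intro j
    apply Differentiable.fun_sum
    intro γ _
    apply Differentiable.mul (Polynomial.differentiable _)
    exact ((differentiable_const _).mul differentiable_id).cexp
  refine ⟨U, ?_, hdiff, hUk, ?_⟩
  · -- exponential polynomials
    let e := Γ.equivFin
    refine ⟨Γ.card, fun i z => M * μ (e.symm i) * z, fun j => ∑ i : Fin Γ.card,
      (aeval (MvPolynomial.X 0 : MvPolynomial (Fin (Γ.card + 1)) ℂ)
        ((q j (e.symm i)).comp (C (M : ℂ) * X + C (c : ℂ)) * C ((e.symm i : ℂ) ^ c))) *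
        MvPolynomial.X i.succ, ?_, ?_⟩
    · intro i
      exact (differentiable_const _).mul differentiable_id
    · intro z j
      rw [map_sum]
      have h1 : ∀ i : Fin Γ.card, MvPolynomial.eval (Fin.cons z fun i =>
          Complex.exp (M * μ (e.symm i) * z) : Fin (Γ.card + 1) → ℂ)
          ((aeval (MvPolynomial.X 0 : MvPolynomial (Fin (Γ.card + 1)) ℂ)
          ((q j (e.symm i)).comp (C (M : ℂ) * X + C (c : ℂ)) * C ((e.symm i : ℂ) ^ c))) *
          MvPolynomial.X i.succ) =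
          ((q j (e.symm i)).comp (C (M : ℂ) * X + C (c : ℂ)) * C ((e.symm i : ℂ) ^ c)).eval z *
            Complex.exp (M * μ (e.symm i) * z) := by
        intro i
        rw [map_mul, MvPolynomial.eval_X, Fin.cons_succ]
        congr 1
        generalize ((q j (e.symm i)).comp (C (M : ℂ) * X + C (c : ℂ)) *
          C ((e.symm i : ℂ) ^ c)) = A
        induction A using Polynomial.induction_on' with
        | add p q hp hq => rw [map_add, map_add, hp, hq, Polynomial.eval_add]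
        | monomial n a => simp
      simp only [h1]
      show ∑ γ ∈ Γ, ((q j γ).comp (C (M : ℂ) * X + C (c : ℂ)) * C (γ ^ c)).eval z *
        Complex.exp (M * μ γ * z) = _
      rw [← Finset.sum_coe_sort Γ (fun γ => ((q j γ).comp (C (M : ℂ) * X + C (c : ℂ)) *
        C (γ ^ c)).eval z * Complex.exp (M * μ γ * z))]
      exact (Equiv.sum_comp e.symm (fun γ : Γ => ((q j γ).comp (C (M : ℂ) * X + C (c : ℂ)) *
        C ((γ : ℂ) ^ c)).eval z * Complex.exp (M * μ γ * z))).symm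
  · intro Q hQ ζ
    apply NF.zero_of_nat hM hΛ.symm.disjoint (NF.eval hNF Q) k₀
    intro k hk
    rw [hUk k hk]
    exact hQ k hk

end Pool.Agent.W235.RM
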