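import Pool.Agent.W235.RM.Dich
import Pool.Agent.W235.RM.Interp

/-!
Entire curves of exponential type, sparse integral points and linear recurrences of integral
points: the equivalence.
-/

set_option autoImplicit false

namespace Pool.Agent.W235.RM

open MvPolynomial IsDedekindDomain Pool.Agent.H159R3.Exp
open Pool.Agent.H458.Sp (nrm)
open Pool.Agent.H533R3.SL (SparseAff smallAff smallAff_finite)
open scoped NumberField

section defs

variable {K : Type} [Field K] {ι κ : Type} {n : ℕ}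

/-- Every nonconstant map from the punctured complex line to `V`, given by Laurent polynomials,
lies in `V'`. -/
def GmCurvesIn (σ : K →+* ℂ) (F : ι → MvPolynomial (Fin n) (𝓞 K))
    (G : κ → MvPolynomial (Fin n) (𝓞 K)) : Prop :=
  ∀ v : ℂ → Fin n → ℂ, (∀ j, Laur fun t => v t j) →
    (∀ i t, t ≠ 0 → eval₂ (σ.comp (algebraMap (𝓞 K) K)) (v t) (F i) = 0) →
    (∃ t s, t ≠ 0 ∧ s ≠ 0 ∧ v t ≠ v s) →
    ∀ l t, t ≠ 0 → eval₂ (σ.comp (algebraMap (𝓞 K) K)) (v t) (G l) = 0

/-- The points of `V` outside `V'` which are `r`-sparse in any base `b ≥ 2`, with digits of house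
at most `B`, are finite in number, all bases taken together. -/
def SparseFiniteAll (F : ι → MvPolynomial (Fin n) (𝓞 K))
    (G : κ → MvPolynomial (Fin n) (𝓞 K)) : Prop :=
  ∀ (L : Type) [Field L] [NumberField L] [Algebra K L] (r : ℕ) (B : ℝ),
    {x | ∃ b, 2 ≤ b ∧ x ∈ sparsePoints F G L b r B}.Finite

/-- The points of `V` outside `V'` which are `r`-sparse in any base `b ≥ 2`, with digits of house
at most `B`, are explicitly bounded. -/
def SparseBounded [NumberField K] (F : ι → MvPolynomial (Fin n) (𝓞 K))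
    (G : κ → MvPolynomial (Fin n) (𝓞 K)) : Prop :=
  ∀ (d : ℕ) (A : ℝ), 1 ≤ d → 1 ≤ A → (∀ i, (F i).totalDegree ≤ d ∧ nrm (F i) ≤ A) →
    ∀ (L : Type) [Field L] [NumberField L] [Algebra K L] (b r : ℕ) (B : ℝ), 2 ≤ b → 1 ≤ B →
      sparsePoints F G L b r B ⊆ smallAff L n (bound d A r B)

/-- Every sequence of `S`-integral points of `V` whose coordinates are linear recurrence sequences
has only finitely many different terms outside `V'`. -/
def RecurrenceFinite (F : ι → MvPolynomial (Fin n) (𝓞 K))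
    (G : κ → MvPolynomial (Fin n) (𝓞 K)) : Prop :=
  ∀ (L : Type) [Field L] [NumberField L] [Algebra K L] (S : Set (HeightOneSpectrum (𝓞 L))),
    S.Finite → ∀ x : ℕ → Fin n → L, (∀ j, IsLinRec fun k => x k j) →
      (∀ k, x k ∈ intPoints F L S) → (Set.range x \ intPoints G L S).Finite

/-- Condition (i): every entire curve in `V` lies in `V'`. -/
def EntireCurvesIn (σ : K →+* ℂ) (F : ι → MvPolynomial (Fin n) (𝓞 K))
    (G : κ → MvPolynomial (Fin n) (𝓞 K)) : Prop :=
  ∀ f : ℂ → Fin n → ℂ, Differentiable ℂ f →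
    (∀ z i, eval₂ (σ.comp (algebraMap (𝓞 K) K)) (f z) (F i) = 0) → (∃ z w, f z ≠ f w) →
    ∀ z l, eval₂ (σ.comp (algebraMap (𝓞 K) K)) (f z) (G l) = 0

end defs

section proofs

variable {K : Type} [Field K] [NumberField K] {ι κ : Type} {n : ℕ}
  (σ : K →+* ℂ) (F : ι → MvPolynomial (Fin n) (𝓞 K)) (G : κ → MvPolynomial (Fin n) (𝓞 K))

omit [NumberField K] in
theorem eval_aeval_X' {l : ℕ} (A : Polynomial ℂ) (Q : Fin l → ℂ) (i : Fin l) :
    eval Q (Polynomial.aeval (X i : MvPolynomial (Fin l) ℂ) A) = A.eval (Q i) := by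
  induction A using Polynomial.induction_on' with
  | add p q hp hq => rw [map_add, map_add, hp, hq, Polynomial.eval_add]
  | monomial n a => simp

theorem Laur.expPoly {φ : ℂ → ℂ} (h : Laur φ) :
    Differentiable ℂ (fun ζ => φ (Complex.exp ζ)) ∧
      ∃ P : MvPolynomial (Fin (2 + 1)) ℂ, ∀ ζ, φ (Complex.exp ζ) = eval
        (Fin.cons ζ fun i => Complex.exp ((![fun y : ℂ => y, fun y : ℂ => -y] : Fin 2 → ℂ → ℂ) i ζ)
          : Fin (2 + 1) → ℂ) P := by
  obtain ⟨M, Q, hQ⟩ := h
  have h1 : ∀ ζ, φ (Complex.exp ζ) = Q.eval (Complex.exp ζ) * (Complex.exp (-ζ)) ^ M := by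
    intro ζ
    rw [← hQ _ (Complex.exp_ne_zero ζ), Complex.exp_neg, mul_assoc, ← mul_pow,
      mul_inv_cancel₀ (Complex.exp_ne_zero ζ), one_pow, mul_one]
  constructor
  · have h2 : (fun ζ => φ (Complex.exp ζ)) = fun ζ => Q.eval (Complex.exp ζ) *
        (Complex.exp (-ζ)) ^ M := funext h1
    rw [h2]
    have h3 : Differentiable ℂ fun ζ => Q.eval (Complex.exp ζ) :=
      Q.differentiable.comp Complex.differentiable_exp
    have h4 : Differentiable ℂ fun ζ : ℂ => Complex.exp (-ζ) := by fun_prop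
    exact h3.mul (h4.pow M)
  · refine ⟨Polynomial.aeval (X 1 : MvPolynomial (Fin (2 + 1)) ℂ) Q * X 2 ^ M, fun ζ => ?_⟩
    rw [h1, map_mul, map_pow, eval_X, eval_aeval_X']
    rfl

omit [NumberField K] in
theorem not_exp_of_not_gm (h : ¬ GmCurvesIn σ F G) : ¬ ExpCurvesIn σ F G := by
  unfold GmCurvesIn at h
  push Not at h
  obtain ⟨v, hv, hvF, ⟨t, s, ht, hs, hne⟩, l, u, hu, hl⟩ := h
  intro hcon
  have hd : Differentiable ℂ fun ζ => v (Complex.exp ζ) := by
    rw [differentiable_pi]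
    intro j
    exact (Laur.expPoly (hv j)).1
  choose P hP using fun j => (Laur.expPoly (hv j)).2
  have h1 := hcon (fun ζ => v (Complex.exp ζ)) ⟨hd, fun ζ => ζ, differentiable_id,
    ⟨0, 1, zero_ne_one⟩, 2, ![fun y : ℂ => y, fun y : ℂ => -y], P, ?_, fun z j => hP j z⟩
    (fun z i => hvF i _ (Complex.exp_ne_zero z))
    ⟨Complex.log t, Complex.log s, by
      rw [Complex.exp_log ht, Complex.exp_log hs]
      exact hne⟩ (Complex.log u) l
  · rw [Complex.exp_log hu] at h1
    exact hl h1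
  · intro i
    fin_cases i
    · exact differentiable_id
    · exact differentiable_id.neg

theorem not_gm_of_hasLaurent (h : HasLaurent F G) : ¬ GmCurvesIn σ F G := by
  classical
  obtain ⟨L, _, _, _, v, hv, hvF, ⟨l, hl⟩, k1, j1, hk1⟩ := h
  let _ : Algebra K ℂ := σ.toAlgebra
  have : Algebra.IsAlgebraic K L := by
    have := NumberField.to_finiteDimensional (K := L)
    have : IsScalarTower ℚ K L := by infer_instance
    have : FiniteDimensional K L := FiniteDimensional.right ℚ K L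
    infer_instance
  let τ : L →ₐ[K] ℂ := IsAlgClosed.lift
  have hτi : Function.Injective τ := (τ : L →+* ℂ).injective
  have hτ : ∀ (x : Fin n → L) (Q : MvPolynomial (Fin n) (𝓞 K)),
      τ (eval₂ ((algebraMap K L).comp (algebraMap (𝓞 K) K)) x Q) =
        eval₂ (σ.comp (algebraMap (𝓞 K) K)) (fun j => τ (x j)) Q := by
    intro x Q
    have h1 : (τ : L →+* ℂ).comp ((algebraMap K L).comp (algebraMap (𝓞 K) K)) =
        σ.comp (algebraMap (𝓞 K) K) := by
      ext a
      exact τ.commutes _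
    have h2 := MvPolynomial.hom_eval₂ Q ((algebraMap K L).comp (algebraMap (𝓞 K) K))
      (τ : L →+* ℂ) x
    rw [h1] at h2
    exact h2
  obtain ⟨M, Q, hQ⟩ := Laur.common v hv
  let w : ℂ → Fin n → ℂ := fun t j => ((Q j).map (τ : L →+* ℂ)).eval t / t ^ M
  have hw : ∀ t : L, t ≠ 0 → ∀ j, w (τ t) j = τ (v t j) := by
    intro t ht j
    rw [hQ t ht j, map_div₀, map_pow]
    simp only [w]
    congr 1
    exact Polynomial.eval_map_apply (τ : L →+* ℂ) t
  have hwL : ∀ j, Laur fun t => w t j := by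
    intro j
    refine ⟨M, (Q j).map (τ : L →+* ℂ), fun t ht => ?_⟩
    exact div_mul_cancel₀ _ (pow_ne_zero _ ht)
  have hw' : ∀ t : L, t ≠ 0 → w (τ t) = fun j => τ (v t j) := fun t ht => funext (hw t ht)
  intro hcon
  have h1 := hcon w hwL (fun i => by
    apply Laur.zero_of_zero (Laur.eval₂ (σ.comp (algebraMap (𝓞 K) K)) w hwL (F i))
    intro m
    have h2 : ((2 : ℂ) ^ m) = τ ((2 : L) ^ m) := by
      rw [map_pow, map_ofNat]
    rw [h2, hw' _ (pow_ne_zero _ two_ne_zero), ← hτ, hvF _ _ (pow_ne_zero _ two_ne_zero),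
      map_zero]) ⟨τ ((2 : L) ^ k1), τ 1, by
        rw [map_pow, map_ofNat]
        exact pow_ne_zero _ two_ne_zero, by
        rw [map_one]
        exact one_ne_zero, fun heq => hk1 (by
        rw [hw' _ (pow_ne_zero _ two_ne_zero), hw' _ one_ne_zero] at heq
        exact hτi (congrFun heq j1))⟩ l (τ 1) (by
        rw [map_one]
        exact one_ne_zero)
  rw [hw' _ one_ne_zero, ← hτ] at h1
  exact hl ((map_eq_zero_iff (τ : L →+* ℂ) hτi).1 h1)

omit [NumberField K] in
theorem not_rec_of_hasLaurent (h : HasLaurent F G) : ¬ RecurrenceFinite F G := by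
  classical
  obtain ⟨L, _, _, _, v, hv, hvF, hG, hne⟩ := h
  obtain ⟨S, hS, hint⟩ := integral_pts v hv
  intro hcon
  have hrec : ∀ j, IsLinRec fun k : ℕ => v ((2 : L) ^ k) j := by
    intro j
    obtain ⟨M, Q, hQ⟩ := hv j
    have h1 : (fun k : ℕ => v ((2 : L) ^ k) j) = fun k : ℕ =>
        ∑ l ∈ Finset.range (Q.natDegree + 1), Q.coeff l * ((2 : L) ^ l / 2 ^ M) ^ k := by
      funext k
      have h2 := hQ ((2 : L) ^ k) (pow_ne_zero _ two_ne_zero)
      have h3 : (((2 : L) ^ k) ^ M) ≠ 0 := pow_ne_zero _ (pow_ne_zero _ two_ne_zero)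
      have h4 : v ((2 : L) ^ k) j = Q.eval ((2 : L) ^ k) / ((2 : L) ^ k) ^ M := by
        rw [eq_div_iff h3, h2]
      rw [h4, Polynomial.eval_eq_sum_range, Finset.sum_div]
      refine Finset.sum_congr rfl fun l _ => ?_
      rw [div_pow, ← pow_mul, ← pow_mul, ← pow_mul, ← pow_mul, mul_comm l k, mul_comm M k,
        mul_div_assoc]
    rw [h1]
    exact IsLinRec.sum _ _ fun l _ => (IsLinRec.geom _).const_mul _
  have hV : ∀ k : ℕ, v ((2 : L) ^ k) ∈ intPoints F L S := fun k =>
    ⟨fun j => hint k j, fun i => hvF i _ (pow_ne_zero _ two_ne_zero)⟩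
  have h1 := hcon L S hS (fun k => v ((2 : L) ^ k)) hrec hV
  have h2 := infinite_points F G L v hv hvF hG hne 2 le_rfl
  apply h2
  refine h1.subset ?_
  rintro x ⟨_, ⟨l, hl⟩, k, rfl⟩
  refine ⟨⟨k, by simp⟩, fun hmem => hl (hmem.2 l)⟩

theorem not_exp_of_not_rec (h : ¬ RecurrenceFinite F G) : ¬ ExpCurvesIn σ F G := by
  classical
  unfold RecurrenceFinite at h
  push Not at h
  obtain ⟨L, _, _, _, S, hS, x, hrec, hx, hinf⟩ := h
  let _ : Algebra K ℂ := σ.toAlgebra
  have : Algebra.IsAlgebraic K L := by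
    have := NumberField.to_finiteDimensional (K := L)
    have : IsScalarTower ℚ K L := by infer_instance
    have : FiniteDimensional K L := FiniteDimensional.right ℚ K L
    infer_instance
  let τ : L →ₐ[K] ℂ := IsAlgClosed.lift
  have hτi : Function.Injective τ := (τ : L →+* ℂ).injective
  have hτ : ∀ (x : Fin n → L) (Q : MvPolynomial (Fin n) (𝓞 K)),
      τ (eval₂ ((algebraMap K L).comp (algebraMap (𝓞 K) K)) x Q) =
        eval₂ (σ.comp (algebraMap (𝓞 K) K)) (fun j => τ (x j)) Q := by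
    intro x Q
    have h1 : (τ : L →+* ℂ).comp ((algebraMap K L).comp (algebraMap (𝓞 K) K)) =
        σ.comp (algebraMap (𝓞 K) K) := by
      ext a
      exact τ.commutes _
    have h2 := MvPolynomial.hom_eval₂ Q ((algebraMap K L).comp (algebraMap (𝓞 K) K))
      (τ : L →+* ℂ) x
    rw [h1] at h2
    exact h2
  obtain ⟨M, k₀, hM, hU⟩ := interp (fun k j => τ (x k j)) (fun j => (hrec j).map (τ : L →+* ℂ))
  -- a residue class with infinitely many values
  obtain ⟨c, hc⟩ : ∃ c, ({y | ∃ k, k₀ ≤ k ∧ y = x (M * k + c)} \ intPoints G L S).Infinite := by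
    by_contra hno
    push Not at hno
    apply hinf
    have h1 : Set.range x \ intPoints G L S ⊆ (x '' {k | k < M * k₀}) ∪
        ⋃ c ∈ {c | c < M}, ({y | ∃ k, k₀ ≤ k ∧ y = x (M * k + c)} \ intPoints G L S) := by
      rintro _ ⟨⟨k, rfl⟩, hk⟩
      rcases Nat.lt_or_ge k (M * k₀) with h2 | h2
      · exact Or.inl ⟨k, h2, rfl⟩
      · right
        refine Set.mem_biUnion (x := k % M) (Nat.mod_lt _ hM) ⟨⟨k / M, ?_, ?_⟩, hk⟩
        · rw [Nat.le_div_iff_mul_le hM, mul_comm]
          exact h2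
        · rw [Nat.div_add_mod]
    refine Set.Finite.subset (((Set.finite_lt_nat _).image _).union
      ((Set.finite_lt_nat _).biUnion fun c _ => hno c)) h1
  obtain ⟨U, hUe, hUd, hUk, hUQ⟩ := hU c
  intro hcon
  have hFU : ∀ z i, eval₂ (σ.comp (algebraMap (𝓞 K) K)) (U z) (F i) = 0 := by
    intro z i
    rw [eval₂_eq_eval_map]
    apply hUQ
    intro k _
    rw [← eval₂_eq_eval_map, ← hτ, (hx _).2 i, map_zero]
  have hnc : ∃ z w, U z ≠ U w := by
    by_contra hno
    push Not at hno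
    apply hc
    have h1 : {y | ∃ k, k₀ ≤ k ∧ y = x (M * k + c)} \ intPoints G L S ⊆ {x (M * k₀ + c)} := by
      rintro _ ⟨⟨k, hk, rfl⟩, _⟩
      rw [Set.mem_singleton_iff]
      have h2 := hno (k : ℂ) (k₀ : ℂ)
      rw [hUk k hk, hUk k₀ le_rfl] at h2
      funext j
      exact hτi (congrFun h2 j)
    exact (Set.finite_singleton _).subset h1
  have h1 := hcon U ⟨hUd, fun z => z, differentiable_id, ⟨0, 1, zero_ne_one⟩, hUe⟩ hFU hnc
  obtain ⟨y, ⟨k, hk, rfl⟩, hy⟩ := hc.nonempty
  apply hy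
  refine ⟨(hx _).1, fun l => ?_⟩
  have h2 := h1 (k : ℂ) l
  rw [hUk k hk, ← hτ] at h2
  exact (map_eq_zero_iff (τ : L →+* ℂ) hτi).1 h2

theorem bounded_of_not_hasLaurent (h : ¬ HasLaurent F G) : SparseBounded F G := by
  intro d A hd hA hF L _ _ _ b r B hb hB x hx
  rcases dich F d hd A hA hF L b r hb B hB x hx.1 hx.2.2 with h1 | ⟨v, hv, hvF, hv1, hk⟩
  · exact h1
  · exfalso
    apply h
    refine ⟨L, inferInstance, inferInstance, inferInstance, v, hv, hvF, ?_, hk⟩
    rw [hv1]
    exact hx.2.1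

theorem SparseAff.mono {L : Type} [Field L] [NumberField L] {b r : ℕ} {B B' : ℝ} (hB : B ≤ B')
    {x : Fin n → L} (hx : SparseAff b r B x) : SparseAff b r B' x := by
  obtain ⟨m, v, hv, h⟩ := hx
  exact ⟨m, v, fun j i => (hv j i).trans hB, h⟩

theorem all_of_bounded [Finite ι] (h : SparseBounded F G) : SparseFiniteAll F G := by
  classical
  have := Fintype.ofFinite ι
  intro L _ _ _ r B
  set d : ℕ := ∑ i, (F i).totalDegree + 1 with hd
  set A : ℝ := ∑ i, nrm (F i) + 1 with hA
  have hF : ∀ i, (F i).totalDegree ≤ d ∧ nrm (F i) ≤ A := by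
    intro i
    constructor
    · have := Finset.single_le_sum (f := fun i => (F i).totalDegree) (fun _ _ => Nat.zero_le _)
        (Finset.mem_univ i)
      omega
    · have := Finset.single_le_sum (f := fun i => nrm (F i))
        (fun _ _ => Pool.Agent.H458.Sp.nrm_nonneg _) (Finset.mem_univ i)
      linarith
  have hA1 : 1 ≤ A := by
    have : 0 ≤ ∑ i, nrm (F i) := Finset.sum_nonneg fun _ _ => Pool.Agent.H458.Sp.nrm_nonneg _
    linarith
  refine (smallAff_finite L n (bound d A r (max B 1))).subset ?_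
  rintro x ⟨b, hb, hx⟩
  exact h d A (by omega) hA1 hF L b r (max B 1) hb (le_max_right _ _)
    ⟨hx.1, hx.2.1, SparseAff.mono (le_max_left _ _) hx.2.2⟩

omit [NumberField K] in
theorem sparse_of_all (h : SparseFiniteAll F G) : SparseFinite F G := by
  intro L _ _ _ b r B hb
  exact (h L r B).subset fun x hx => ⟨b, hb, hx⟩

/-- **the equivalence** -/
theorem tfae [Finite ι] : List.TFAE [ExpCurvesIn σ F G, GmCurvesIn σ F G, SparseFinite F G,
    SparseFiniteAll F G, SparseBounded F G, RecurrenceFinite F G] := by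
  tfae_have 1 → 2 := fun h => by
    by_contra h2
    exact not_exp_of_not_gm σ F G h2 h
  tfae_have 2 → 5 := fun h => bounded_of_not_hasLaurent F G fun h2 =>
    not_gm_of_hasLaurent σ F G h2 h
  tfae_have 5 → 4 := all_of_bounded F G
  tfae_have 4 → 3 := sparse_of_all F G
  tfae_have 3 → 1 := fun h => by
    by_contra h2
    exact not_sparseFinite F G (hasLaurent_of_exp F G σ h2) h
  tfae_have 1 → 6 := fun h => by
    by_contra h2
    exact not_exp_of_not_rec σ F G h2 h
  tfae_have 6 → 1 := fun h => by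
    by_contra h2
    exact not_rec_of_hasLaurent F G (hasLaurent_of_exp F G σ h2) h
  tfae_finish

omit [NumberField K] in
theorem exp_of_entire (h : EntireCurvesIn σ F G) : ExpCurvesIn σ F G :=
  fun f hf => h f hf.1

omit [NumberField K] in
theorem rec_of_integral (h : FinitelyManyIntegral F G) : RecurrenceFinite F G := by
  intro L _ _ _ S hS x _ hx
  refine (h L S hS).subset ?_
  rintro _ ⟨⟨k, rfl⟩, hk⟩
  exact ⟨hx k, hk⟩

end proofs

end Pool.Agent.W235.RM
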