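import Pool.Agent.W235.RM.Sparse

/-!
Large sparse points of affine varieties lie on curves with Laurent coordinates.
-/

set_option autoImplicit false

namespace Pool.Agent.W235.RM

open MvPolynomial IsDedekindDomain
open Pool.Agent.H159R3.Exp (Laur)
open Pool.Agent.H458.Sp Pool.Agent.H533R3.SL
open scoped NumberField

/-- homogenisation -/
noncomputable def hmg {R : Type*} [CommRing R] {n : ℕ} (d : ℕ) (F : MvPolynomial (Fin n) R) :
    MvPolynomial (Fin (n + 1)) R :=
  ∑ α ∈ F.support, monomial (Finsupp.cons (d - ∑ i, α i) α) (coeff α F)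

theorem hmg_homog {R : Type*} [CommRing R] {n : ℕ} (d : ℕ) (F : MvPolynomial (Fin n) R)
    (hF : F.totalDegree ≤ d) : (hmg d F).IsHomogeneous d := by
  unfold hmg
  apply IsHomogeneous.sum
  intro α hα
  apply isHomogeneous_monomial
  have h1 : ∑ i, α i ≤ d := by
    refine le_trans ?_ hF
    have := le_totalDegree hα
    rwa [Finsupp.sum_fintype _ _ (by simp)] at this
  rw [Finsupp.degree_eq_sum, Fin.sum_univ_succ, Finsupp.cons_zero]
  simp only [Finsupp.cons_succ]
  omega

theorem hmg_eval {R S : Type*} [CommRing R] [CommRing S] {n : ℕ} (φ : R →+* S) (d : ℕ)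
    (F : MvPolynomial (Fin n) R) (hF : F.totalDegree ≤ d) (t : S) (x : Fin n → S) :
    eval₂ φ (Fin.cons t (fun i => t * x i) : Fin (n + 1) → S) (hmg d F) =
      t ^ d * eval₂ φ x F := by
  unfold hmg
  rw [eval₂_sum, eval₂_eq', Finset.mul_sum]
  refine Finset.sum_congr rfl fun α hα => ?_
  have h1 : ∑ i, α i ≤ d := by
    refine le_trans ?_ hF
    have := le_totalDegree hα
    rwa [Finsupp.sum_fintype _ _ (by simp)] at this
  rw [eval₂_monomial, Finsupp.prod_fintype _ _ (by simp), Fin.prod_univ_succ]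
  simp only [Finsupp.cons_zero, Finsupp.cons_succ, Fin.cons_zero, Fin.cons_succ, mul_pow]
  rw [Finset.prod_mul_distrib, Finset.prod_pow_eq_pow_sum]
  have h2 : t ^ d = t ^ (d - ∑ i, α i) * t ^ (∑ i, α i) := by
    rw [← pow_add, Nat.sub_add_cancel h1]
  rw [h2]
  ring

theorem hmg_nrm {k : Type} [Field k] [NumberField k] {n : ℕ} (d : ℕ)
    (F : MvPolynomial (Fin n) (𝓞 k)) : nrm (hmg d F) ≤ nrm F := by
  unfold hmg
  refine (nrm_sum _ _).trans ?_
  unfold nrm
  apply Finset.sum_le_sum
  intro α _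
  exact nrm_monomial _ _

/-- the explicit bound -/
noncomputable def bound (d : ℕ) (A : ℝ) (r : ℕ) (B : ℝ) : ℝ :=
  Real.exp ((8 * d * (6 + 8 * d + 4 * Real.log A)) ^ (r + 1) *
    (1 + Real.log B + Real.log (A * ((r + 1 : ℕ) * B) ^ d)))

theorem dich {K : Type} [Field K] [NumberField K] {ι : Type} {n : ℕ}
    (F : ι → MvPolynomial (Fin n) (𝓞 K)) (d : ℕ) (hd : 1 ≤ d) (A : ℝ) (hA : 1 ≤ A)
    (hF : ∀ i, (F i).totalDegree ≤ d ∧ nrm (F i) ≤ A)
    (L : Type) [Field L] [NumberField L] [Algebra K L] (b r : ℕ) (hb : 2 ≤ b) (B : ℝ) (hB : 1 ≤ B)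
    (x : Fin n → L) (hx0 : ∀ i, eval₂ ((algebraMap K L).comp (algebraMap (𝓞 K) K)) x (F i) = 0)
    (hs : SparseAff b r B x) :
    x ∈ smallAff L n (bound d A r B) ∨
    ∃ v : L → Fin n → L, (∀ j, Laur fun t => v t j) ∧
      (∀ i t, t ≠ 0 → eval₂ ((algebraMap K L).comp (algebraMap (𝓞 K) K)) (v t) (F i) = 0) ∧
      v 1 = x ∧ ∃ (k : ℕ) (j : Fin n), v (2 ^ k) j ≠ v 1 j := by
  classical
  obtain ⟨m, v, hv, hx⟩ := hs
  set φ : 𝓞 K →+* L := (algebraMap K L).comp (algebraMap (𝓞 K) K) with hφ
  have hbK : (b : L) ≠ 0 := by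
    have : (b : ℕ) ≠ 0 := by omega
    exact_mod_cast this
  -- clear the denominators
  obtain ⟨a, ha⟩ : ∃ a : ℕ, ∀ j, 0 ≤ m j + a := by
    refine ⟨∑ j, (m j).natAbs, fun j => ?_⟩
    have h1 : (m j).natAbs ≤ ∑ j, (m j).natAbs :=
      Finset.single_le_sum (f := fun j => (m j).natAbs) (fun _ _ => Nat.zero_le _)
        (Finset.mem_univ j)
    omega
  let m' : Fin (r + 1) → ℕ := Fin.cons a (fun j => (m j + a).toNat)
  let v' : Fin (r + 1) → Fin (n + 1) → 𝓞 L :=
    Fin.cons (Fin.cons 1 (fun _ => 0)) (fun j => Fin.cons 0 (v j))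
  let z : Fin (n + 1) → 𝓞 L := fun i => ∑ j, (b : 𝓞 L) ^ (m' j) * v' j i
  have hz0 : z 0 = (b : 𝓞 L) ^ a := by
    simp [z, m', v', Fin.sum_univ_succ]
  have hzs : ∀ i : Fin n, algebraMap (𝓞 L) L (z i.succ) = (b : L) ^ a * x i := by
    intro i
    rw [hx i, Finset.mul_sum]
    simp only [z, m', v', Fin.sum_univ_succ, Fin.cons_zero, Fin.cons_succ, mul_zero, zero_add,
      map_sum, map_mul, map_pow, map_natCast]
    refine Finset.sum_congr rfl fun j _ => ?_
    rw [← mul_assoc]
    congr 1
    rw [← zpow_natCast, ← zpow_natCast, ← zpow_add₀ hbK, Int.toNat_of_nonneg (ha j), add_comm]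
  have hzK : (fun i => algebraMap (𝓞 L) L (z i)) =
      (Fin.cons ((b : L) ^ a) (fun i => (b : L) ^ a * x i) : Fin (n + 1) → L) := by
    funext i
    refine Fin.cases ?_ (fun i => ?_) i
    · rw [hz0]; simp
    · rw [hzs]; simp
  have hb0' : ((b : 𝓞 L)) ≠ 0 := by
    have : (b : ℕ) ≠ 0 := by omega
    exact_mod_cast this
  have hz : z ≠ 0 := by
    intro h
    have h1 := congrFun h 0
    rw [hz0] at h1
    exact pow_ne_zero a hb0' h1
  have hinjK := FaithfulSMul.algebraMap_injective (𝓞 L) L
  have hcomp : (algebraMap (𝓞 L) L).comp (algebraMap (𝓞 K) (𝓞 L)) = φ := by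
    refine RingHom.ext fun a => ?_
    rfl
  let FF : Set (MvPolynomial (Fin (n + 1)) (𝓞 L)) :=
    Set.range fun i => map (algebraMap (𝓞 K) (𝓞 L)) (hmg d (F i))
  have hzero : ∀ F' ∈ FF, aeval z F' = 0 := by
    rintro _ ⟨i, rfl⟩
    apply hinjK
    rw [map_zero]
    have h1 : algebraMap (𝓞 L) L (aeval z (map (algebraMap (𝓞 K) (𝓞 L)) (hmg d (F i)))) =
        eval₂ φ (fun i => algebraMap (𝓞 L) L (z i)) (hmg d (F i)) := by
      rw [aeval_def, eval₂_map, MvPolynomial.hom_eval₂]
      congr 1
    rw [h1, hzK, hmg_eval φ d (F i) (hF i).1, hx0, mul_zero]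
  have hFK : ∀ F' ∈ FF, (∃ e, e ≤ d ∧ F'.IsHomogeneous e) ∧ nrm F' ≤ A := by
    rintro _ ⟨i, rfl⟩
    exact ⟨⟨d, le_rfl, (hmg_homog d (F i) (hF i).1).map _⟩,
      (nrm_map_le _).trans ((hmg_nrm d (F i)).trans (hF i).2)⟩
  have hv' : ∀ j i, Pool.Agent.H458.Sp.hs (v' j i) ≤ B := by
    intro j i
    refine Fin.cases ?_ (fun j => ?_) j
    · refine Fin.cases ?_ (fun i => ?_) i
      · simp only [v', Fin.cons_zero]
        rw [hs_one]
        exact hB
      · simp only [v', Fin.cons_zero, Fin.cons_succ]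
        rw [hs_zero]
        linarith
    · refine Fin.cases ?_ (fun i => ?_) i
      · simp only [v', Fin.cons_zero, Fin.cons_succ]
        rw [hs_zero]
        linarith
      · simp only [v', Fin.cons_succ]
        exact hv j i
  rcases dichotomyL_all FF d hd A hA hFK b hb (r + 1) (by omega) B hB m' v' hv' z hz
    (fun i => rfl) hzero with ⟨lam, hcur, i, i', hc⟩ | ⟨y, hy0, hzy, hyB⟩
  · right
    let P : Fin (n + 1) → Polynomial L := fun i => (curve b m' lam v' i).map (algebraMap (𝓞 L) L)
    have hP0 : ∀ t : L, (P 0).eval t = (b : L) ^ a * t ^ (lam 0) := by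
      intro t
      simp only [P]
      unfold curve
      rw [Fin.sum_univ_succ]
      simp [m', v']
    have hP1 : ∀ i, (P i).eval 1 = algebraMap (𝓞 L) L (z i) := by
      intro i
      have h3 := curve_eval_one b m' lam v' i
      simp only [P]
      rw [Polynomial.eval_map, Polynomial.eval₂_at_one, h3]
    have hP0' : ∀ t : L, t ≠ 0 → (P 0).eval t ≠ 0 := by
      intro t ht
      rw [hP0]
      exact mul_ne_zero (pow_ne_zero _ hbK) (pow_ne_zero _ ht)
    let w : L → Fin n → L := fun t j => (P j.succ).eval t / (P 0).eval t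
    have hw1 : w 1 = x := by
      funext j
      simp only [w]
      rw [hP1, hP1, hz0, hzs, map_pow, map_natCast]
      field_simp
    refine ⟨w, ?_, ?_, hw1, ?_⟩
    · intro j
      refine ⟨lam 0, Polynomial.C ((b : L) ^ a)⁻¹ * P j.succ, fun t ht => ?_⟩
      simp only [w]
      rw [hP0, Polynomial.eval_mul, Polynomial.eval_C]
      have h1 : (b : L) ^ a ≠ 0 := pow_ne_zero _ hbK
      have h2 : t ^ lam 0 ≠ 0 := pow_ne_zero _ ht
      field_simp
    · intro i t ht
      have h1 := hcur _ ⟨i, rfl⟩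
      have h2 := congrArg (fun q : Polynomial (𝓞 L) => (q.map (algebraMap (𝓞 L) L)).eval t) h1
      simp only [Polynomial.map_zero, Polynomial.eval_zero] at h2
      have h3 : ((aeval (curve b m' lam v') (map (algebraMap (𝓞 K) (𝓞 L)) (hmg d (F i)))).map
          (algebraMap (𝓞 L) L)).eval t = eval₂ φ (fun i => (P i).eval t) (hmg d (F i)) := by
        let Ψ : Polynomial (𝓞 L) →+* L :=
          (Polynomial.evalRingHom t).comp (Polynomial.mapRingHom (algebraMap (𝓞 L) L))
        show Ψ (aeval (curve b m' lam v') (map (algebraMap (𝓞 K) (𝓞 L)) (hmg d (F i)))) = _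
        rw [aeval_def, eval₂_map, MvPolynomial.hom_eval₂]
        congr 1
        refine RingHom.ext fun a => ?_
        show Ψ (algebraMap (𝓞 L) (Polynomial (𝓞 L)) (algebraMap (𝓞 K) (𝓞 L) a)) = φ a
        rw [Polynomial.algebraMap_apply]
        show ((Polynomial.C (algebraMap (𝓞 L) (𝓞 L) (algebraMap (𝓞 K) (𝓞 L) a))).map
          (algebraMap (𝓞 L) L)).eval t = _
        rw [Polynomial.map_C, Polynomial.eval_C]
        rfl
      rw [h3] at h2
      have h4 : (fun i => (P i).eval t) = (Fin.cons ((P 0).eval t)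
          (fun i => (P 0).eval t * w t i) : Fin (n + 1) → L) := by
        funext i
        refine Fin.cases ?_ (fun i => ?_) i
        · simp
        · simp only [Fin.cons_succ, w]
          rw [mul_div_cancel₀ _ (hP0' t ht)]
      rw [h4, hmg_eval φ d (F i) (hF i).1] at h2
      exact (mul_eq_zero.mp h2).resolve_left (pow_ne_zero _ (hP0' t ht))
    · by_contra hcon
      push Not at hcon
      -- then all coordinates are constant
      have h1 : ∀ j : Fin (n + 1), P j * Polynomial.C (algebraMap (𝓞 L) L (z 0)) =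
          P 0 * Polynomial.C (algebraMap (𝓞 L) L (z j)) := by
        intro j
        refine Fin.cases rfl (fun j => ?_) j
        rw [← sub_eq_zero]
        by_contra hne
        have h2 := Polynomial.finite_setOfPred_isRoot hne
        have h3 : Function.Injective fun n : ℕ => (2 : L) ^ n := by
          intro a b hab
          have h5 : ((2 ^ a : ℕ) : L) = ((2 ^ b : ℕ) : L) := by
            push_cast
            exact hab
          exact Nat.pow_right_injective (le_refl 2) (Nat.cast_injective h5)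
        apply Set.infinite_range_of_injective h3
        refine h2.subset ?_
        rintro _ ⟨k, rfl⟩
        have h5 := hcon k j
        rw [hw1] at h5
        simp only [w] at h5
        rw [div_eq_iff (hP0' _ (pow_ne_zero _ two_ne_zero))] at h5
        simp only [Set.mem_ofPred_eq, Polynomial.IsRoot.def, Polynomial.eval_sub,
          Polynomial.eval_mul, Polynomial.eval_C]
        rw [h5, hzs, hz0, map_pow, map_natCast]
        ring
      apply hc
      have h7 : algebraMap (𝓞 L) L (z 0) ≠ 0 := by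
        rw [hz0, map_pow, map_natCast]
        exact pow_ne_zero _ hbK
      have h8 : ∀ u w : Fin (n + 1), P u * Polynomial.C (algebraMap (𝓞 L) L (z w)) =
          P w * Polynomial.C (algebraMap (𝓞 L) L (z u)) := by
        intro u w
        have h9 : (Polynomial.C (algebraMap (𝓞 L) L (z 0)) : Polynomial L) ≠ 0 :=
          Polynomial.C_ne_zero.mpr h7
        apply mul_left_cancel₀ h9
        linear_combination Polynomial.C (algebraMap (𝓞 L) L (z w)) * h1 u -
          Polynomial.C (algebraMap (𝓞 L) L (z u)) * h1 w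
      have h10 := h8 i i'
      apply Polynomial.map_injective (algebraMap (𝓞 L) L) hinjK
      rw [Polynomial.map_mul, Polynomial.map_mul, Polynomial.map_C, Polynomial.map_C]
      exact h10
  · -- the small representative
    left
    have hy00 : y 0 ≠ 0 := by
      intro h
      apply hy0
      funext i
      have h1 := hzy 0 i
      rw [h, mul_zero, hz0] at h1
      rcases mul_eq_zero.1 h1 with h3 | h3
      · exact absurd h3 (pow_ne_zero a hb0')
      · exact h3
    refine ⟨y 0, hy00, hyB 0, fun i => y i.succ, fun i => hyB _, fun i => ?_⟩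
    have hy00' : algebraMap (𝓞 L) L (y 0) ≠ 0 := by
      intro h
      exact hy00 (hinjK (by rw [h, map_zero]))
    rw [eq_div_iff hy00']
    have h1 := congrArg (algebraMap (𝓞 L) L) (hzy 0 i.succ)
    rw [map_mul, map_mul, hzs, hz0, map_pow, map_natCast] at h1
    have hba : ((b : L) ^ a) ≠ 0 := pow_ne_zero _ hbK
    apply mul_left_cancel₀ hba
    rw [h1]
    ring

end Pool.Agent.W235.RM
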