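import Pool.Agent.W235.RM.Rec

/-!
Exponential polynomials that vanish at the natural numbers, and interpolation of linear recurrences
by exponential polynomials.
-/

set_option autoImplicit false

namespace Pool.Agent.W235.RM

open Polynomial

theorem fwdDiff_cast {L : Type*} [Field L] (f : L → L) (m n : ℕ) :
    (fwdDiff (1 : ℕ))^[m] (fun n : ℕ => f (n : L)) n = (fwdDiff (1 : L))^[m] f (n : L) := by
  induction m generalizing f n with
  | zero => rfl
  | succ m ih =>
    rw [Function.iterate_succ_apply, Function.iterate_succ_apply]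
    have h1 : fwdDiff (1 : ℕ) (fun n : ℕ => f (n : L)) = fun n : ℕ => fwdDiff (1 : L) f (n : L) := by
      funext n
      simp [fwdDiff]
    rw [h1, ih]

/-- `(shift - γ) ^ m` kills `p(n) γ ^ n` if `m > deg p` -/
theorem kill {L : Type*} [Field L] (γ : L) (hγ : γ ≠ 0) (p : L[X]) (m : ℕ)
    (hm : p.natDegree < m) :
    (aeval (shift L) ((X - C γ) ^ m)) (fun n : ℕ => p.eval (n : L) * γ ^ n) = 0 := by
  funext n
  have h1 := fwdDiff_iter γ hγ (fun n : ℕ => p.eval (n : L) * γ ^ n) m n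
  have h2 : (fun n : ℕ => p.eval (n : L) * γ ^ n / γ ^ n) = fun n : ℕ => p.eval (n : L) := by
    funext n
    rw [mul_div_cancel_right₀ _ (pow_ne_zero _ hγ)]
  rw [h2, fwdDiff_cast (fun x => p.eval x), Polynomial.fwdDiff_iter_eq_zero_of_degree_lt hm] at h1
  simp only [Pi.zero_apply] at h1
  rcases div_eq_zero_iff.mp h1.symm with h | h
  · exact h
  · exact absurd h (pow_ne_zero _ hγ)

theorem indep {L : Type*} [Field L] [CharZero L] (T : Finset L) (h0 : (0 : L) ∉ T) (q : L → L[X])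
    (k₁ : ℕ) (h : ∀ k : ℕ, k₁ ≤ k → ∑ γ ∈ T, (q γ).eval (k : L) * γ ^ k = 0) :
    ∀ γ ∈ T, q γ = 0 := by
  classical
  intro γ hγ
  have hne : ∀ δ ∈ T, δ ≠ 0 := by
    rintro δ hδ rfl
    exact h0 hδ
  let s : L → ℕ → L := fun δ n => (q δ).eval (n : L) * δ ^ n
  let m : L → ℕ := fun δ => (q δ).natDegree + 1
  have hk : ∀ δ ∈ T, (aeval (shift L) ((X - C δ) ^ m δ)) (s δ) = 0 := fun δ hδ =>
    kill δ (hne δ hδ) (q δ) (m δ) (Nat.lt_succ_self _)
  -- a polynomial which kills everything but `s γ`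
  let P : L[X] := X ^ k₁ * ∏ δ ∈ T.erase γ, (X - C δ) ^ m δ
  have hP : (aeval (shift L) P) (s γ) = 0 := by
    have h1 : (aeval (shift L) P) (∑ δ ∈ T, s δ) = 0 := by
      have h2 : (aeval (shift L) (X ^ k₁ : L[X])) (∑ δ ∈ T, s δ) = 0 := by
        funext n
        rw [map_pow, aeval_X, shift_pow]
        have h3 := h (n + k₁) (Nat.le_add_left _ _)
        simpa [s] using h3
      show (aeval (shift L) (X ^ k₁ * ∏ δ ∈ T.erase γ, (X - C δ) ^ m δ)) (∑ δ ∈ T, s δ) = 0
      rw [mul_comm, map_mul, Module.End.mul_apply, h2, map_zero]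
    have h4 : ∀ δ ∈ T.erase γ, (aeval (shift L) P) (s δ) = 0 := by
      intro δ hδ
      have h5 : P = (X ^ k₁ * ∏ δ' ∈ (T.erase γ).erase δ, (X - C δ') ^ m δ') * (X - C δ) ^ m δ := by
        show X ^ k₁ * ∏ δ ∈ T.erase γ, (X - C δ) ^ m δ = _
        rw [← Finset.mul_prod_erase _ _ hδ]
        ring
      rw [h5, map_mul, Module.End.mul_apply, hk δ (Finset.mem_of_mem_erase hδ), map_zero]
    rw [← Finset.add_sum_erase T _ hγ, map_add, map_sum, Finset.sum_eq_zero h4, add_zero] at h1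
    exact h1
  have hcop : IsCoprime P ((X - C γ) ^ m γ) := by
    apply IsCoprime.mul_left
    · apply IsCoprime.pow_left
      apply IsCoprime.pow_right
      have := isCoprime_X_sub_C_of_isUnit_sub (R := L) (a := 0) (b := γ)
        (by rw [isUnit_iff_ne_zero, zero_sub]; exact neg_ne_zero.mpr (hne γ hγ))
      simpa using this
    · apply IsCoprime.prod_left
      intro δ hδ
      apply IsCoprime.pow
      apply isCoprime_X_sub_C_of_isUnit_sub
      rw [isUnit_iff_ne_zero, sub_ne_zero]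
      exact Finset.ne_of_mem_erase hδ
  have hs : s γ = 0 := by
    have h1 := disjoint_ker_aeval_of_isCoprime (shift L) hcop
    rw [Submodule.disjoint_def] at h1
    exact h1 _ hP (hk γ hγ)
  apply Polynomial.eq_zero_of_infinite_isRoot
  have h6 : Set.range (fun n : ℕ => (n : L)) ⊆ {x | (q γ).IsRoot x} := by
    rintro _ ⟨n, rfl⟩
    have h7 : (q γ).eval (n : L) * γ ^ n = 0 := congrFun hs n
    exact (mul_eq_zero.mp h7).resolve_right (pow_ne_zero _ (hne γ hγ))
  exact (Set.infinite_range_of_injective Nat.cast_injective).mono h6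

/-! ### the ring of exponential polynomials with frequencies in `M Λ` -/

/-- sums of products of polynomials and exponentials `exp (M μ ζ)` with `μ` in `Λ` -/
def NF (M : ℕ) (Λ : Submodule ℚ ℂ) (f : ℂ → ℂ) : Prop :=
  ∃ q : ℂ →₀ ℂ[X], (∀ μ ∈ q.support, μ ∈ Λ) ∧
    ∀ ζ, f ζ = q.sum fun μ p => p.eval ζ * Complex.exp (M * μ * ζ)

variable {M : ℕ} {Λ : Submodule ℚ ℂ}

theorem NF.add {f g : ℂ → ℂ} (hf : NF M Λ f) (hg : NF M Λ g) : NF M Λ fun ζ => f ζ + g ζ := by
  classical
  obtain ⟨q, hq, hq'⟩ := hf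
  obtain ⟨r, hr, hr'⟩ := hg
  refine ⟨q + r, fun μ hμ => ?_, fun ζ => ?_⟩
  · rcases Finset.mem_union.mp (Finsupp.support_add hμ) with h | h
    · exact hq μ h
    · exact hr μ h
  · show f ζ + g ζ = _
    rw [hq', hr', Finsupp.sum_add_index']
    · intro a
      simp
    · intro a b c
      rw [eval_add]
      ring

theorem NF.single (p : ℂ[X]) (μ : ℂ) (hμ : μ ∈ Λ) :
    NF M Λ fun ζ => p.eval ζ * Complex.exp (M * μ * ζ) := by
  classical
  refine ⟨Finsupp.single μ p, fun ν hν => ?_, fun ζ => ?_⟩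
  · have := Finsupp.support_single_subset hν
    rw [Finset.mem_singleton] at this
    rwa [this]
  · rw [Finsupp.sum_single_index]
    simp

theorem NF.const (c : ℂ) : NF M Λ fun _ => c := by
  have := NF.single (M := M) (C c) 0 (Λ.zero_mem)
  simpa using this

theorem NF.sum {ι : Type*} (s : Finset ι) (f : ι → ℂ → ℂ) (h : ∀ i ∈ s, NF M Λ (f i)) :
    NF M Λ fun ζ => ∑ i ∈ s, f i ζ := by
  classical
  induction s using Finset.induction_on with
  | empty => simpa using NF.const (M := M) (Λ := Λ) 0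
  | insert a s ha ih =>
    simp only [Finset.sum_insert ha]
    exact (h a (Finset.mem_insert_self _ _)).add (ih fun i hi => h i (Finset.mem_insert_of_mem hi))

theorem NF.mul {f g : ℂ → ℂ} (hf : NF M Λ f) (hg : NF M Λ g) : NF M Λ fun ζ => f ζ * g ζ := by
  classical
  obtain ⟨q, hq, hq'⟩ := hf
  obtain ⟨r, hr, hr'⟩ := hg
  have h1 : (fun ζ => f ζ * g ζ) = fun ζ => ∑ μ ∈ q.support, ∑ ν ∈ r.support,
      ((q μ * r ν).eval ζ * Complex.exp (M * (μ + ν) * ζ)) := by
    funext ζ
    rw [hq', hr', Finsupp.sum, Finsupp.sum, Finset.sum_mul_sum]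
    refine Finset.sum_congr rfl fun μ _ => Finset.sum_congr rfl fun ν _ => ?_
    rw [eval_mul, mul_add, add_mul, Complex.exp_add]
    ring
  rw [h1]
  exact NF.sum _ _ fun μ hμ => NF.sum _ _ fun ν hν =>
    NF.single _ _ (Λ.add_mem (hq μ hμ) (hr ν hν))

theorem NF.eval {n : ℕ} {U : ℂ → Fin n → ℂ} (hU : ∀ j, NF M Λ fun ζ => U ζ j)
    (Q : MvPolynomial (Fin n) ℂ) : NF M Λ fun ζ => MvPolynomial.eval (U ζ) Q := by
  induction Q using MvPolynomial.induction_on with
  | C a => simpa using NF.const a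
  | add p q hp hq =>
    simp only [map_add]
    exact hp.add hq
  | mul_X p j hp =>
    simp only [map_mul, MvPolynomial.eval_X]
    exact hp.mul (hU j)

/-- an exponential polynomial that vanishes at all large natural numbers is zero -/
theorem NF.zero_of_nat (hM : 1 ≤ M) (hΛ : Disjoint Λ (Submodule.span ℚ {2 * Real.pi * Complex.I}))
    {f : ℂ → ℂ} (hf : NF M Λ f) (k₁ : ℕ) (h : ∀ k : ℕ, k₁ ≤ k → f k = 0) (ζ : ℂ) : f ζ = 0 := by
  classical
  obtain ⟨q, hq, hq'⟩ := hf
  have hM0 : (M : ℂ) ≠ 0 := by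
    have : M ≠ 0 := by omega
    exact_mod_cast this
  -- the exponentials are different
  have hinj : ∀ μ ∈ q.support, ∀ ν ∈ q.support,
      Complex.exp (M * μ) = Complex.exp (M * ν) → μ = ν := by
    intro μ hμ ν hν he
    rw [Complex.exp_eq_exp_iff_exists_int] at he
    obtain ⟨n, hn⟩ := he
    have h1 : μ - ν = ((n : ℚ) / (M : ℚ)) • (2 * Real.pi * Complex.I : ℂ) := by
      rw [Rat.smul_def]
      push_cast
      field_simp
      linear_combination hn
    have h2 : μ - ν ∈ Submodule.span ℚ {(2 * Real.pi * Complex.I : ℂ)} := by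
      rw [h1]
      exact Submodule.smul_mem _ _ (Submodule.mem_span_singleton_self _)
    have h3 : μ - ν ∈ Λ := Λ.sub_mem (hq μ hμ) (hq ν hν)
    exact sub_eq_zero.mp ((Submodule.disjoint_def.mp hΛ) _ h3 h2)
  let T : Finset ℂ := q.support.image fun μ => Complex.exp (M * μ)
  have hT0 : (0 : ℂ) ∉ T := by
    intro h0
    obtain ⟨μ, _, hμ⟩ := Finset.mem_image.mp h0
    exact Complex.exp_ne_zero _ hμ
  let r : ℂ → ℂ[X] := fun γ => if h : ∃ μ ∈ q.support, Complex.exp (M * μ) = γ then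
    q (Classical.choose h) else 0
  have hr : ∀ μ ∈ q.support, r (Complex.exp (M * μ)) = q μ := by
    intro μ hμ
    have h1 : ∃ ν ∈ q.support, Complex.exp (M * ν) = Complex.exp (M * μ) := ⟨μ, hμ, rfl⟩
    simp only [r]
    rw [dif_pos h1]
    congr 1
    have h2 := Classical.choose_spec h1
    exact hinj _ h2.1 _ hμ h2.2
  have h4 := indep T hT0 r k₁ (fun k hk => by
    rw [Finset.sum_image (fun μ hμ ν hν he => hinj μ hμ ν hν he), ← h k hk, hq', Finsupp.sum]
    refine Finset.sum_congr rfl fun μ hμ => ?_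
    rw [hr μ hμ, ← Complex.exp_nat_mul]
    congr 2
    ring)
  rw [hq', Finsupp.sum]
  apply Finset.sum_eq_zero
  intro μ hμ
  have h5 := h4 _ (Finset.mem_image_of_mem _ hμ)
  rw [hr μ hμ] at h5
  rw [h5]
  simp

end Pool.Agent.W235.RM
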