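import Mathlib

/-!
Linear recurrence sequences over a field, in terms of the shift operator, and their closed form.
-/

set_option autoImplicit false

namespace Pool.Agent.W235.RM

open Polynomial

/-- `u` satisfies a linear recurrence. -/
def IsLinRec {L : Type*} [Field L] (u : ℕ → L) : Prop :=
  ∃ E : LinearRecurrence L, E.IsSolution u

/-- the shift -/
def shift (L : Type*) [Field L] : (ℕ → L) →ₗ[L] (ℕ → L) where
  toFun u n := u (n + 1)
  map_add' _ _ := rfl
  map_smul' _ _ := rfl

variable {L : Type*} [Field L]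

theorem shift_pow (i : ℕ) (u : ℕ → L) (n : ℕ) : ((shift L) ^ i) u n = u (n + i) := by
  induction i generalizing n with
  | zero => simp
  | succ i ih =>
    rw [pow_succ', Module.End.mul_apply]
    show ((shift L) ^ i) u (n + 1) = _
    rw [ih]
    congr 1
    ring

theorem aeval_shift (p : L[X]) (u : ℕ → L) (n : ℕ) :
    (aeval (shift L) p) u n = ∑ i ∈ Finset.range (p.natDegree + 1), p.coeff i * u (n + i) := by
  rw [aeval_eq_sum_range]
  simp only [LinearMap.sum_apply, LinearMap.smul_apply, Finset.sum_apply, Pi.smul_apply,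
    smul_eq_mul, shift_pow]

theorem isLinRec_iff (u : ℕ → L) :
    IsLinRec u ↔ ∃ p : L[X], p ≠ 0 ∧ (aeval (shift L) p) u = 0 := by
  constructor
  · rintro ⟨E, hE⟩
    refine ⟨E.charPoly, E.charPoly_monic.ne_zero, ?_⟩
    funext n
    unfold LinearRecurrence.charPoly
    rw [map_sub, map_sum]
    simp only [aeval_monomial, LinearMap.sub_apply, LinearMap.sum_apply, Pi.sub_apply,
      Finset.sum_apply, Module.End.mul_apply, Module.algebraMap_end_apply, Pi.smul_apply,
      shift_pow, smul_eq_mul, one_mul, Pi.zero_apply]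
    rw [hE n, sub_self]
  · rintro ⟨p, hp, hu⟩
    refine ⟨⟨p.natDegree, fun i => - p.coeff i / p.leadingCoeff⟩, fun n => ?_⟩
    have h1 := congrFun hu n
    rw [aeval_shift, Finset.sum_range_succ, Finset.sum_range] at h1
    simp only [Pi.zero_apply] at h1
    have hl : p.leadingCoeff ≠ 0 := leadingCoeff_ne_zero.mpr hp
    have hl' : p.coeff p.natDegree ≠ 0 := hl
    show u (n + p.natDegree) = ∑ i : Fin p.natDegree, - p.coeff i / p.leadingCoeff * u (n + i)
    have h2 : ∑ i : Fin p.natDegree, - p.coeff i / p.leadingCoeff * u (n + i) =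
        - (∑ i : Fin p.natDegree, p.coeff i * u (n + i)) / p.leadingCoeff := by
      rw [neg_div, Finset.sum_div, ← Finset.sum_neg_distrib]
      refine Finset.sum_congr rfl fun i _ => ?_
      ring
    rw [h2, eq_div_iff hl]
    show u (n + p.natDegree) * p.coeff p.natDegree = _
    linear_combination h1

theorem IsLinRec.add {u w : ℕ → L} (hu : IsLinRec u) (hw : IsLinRec w) :
    IsLinRec fun n => u n + w n := by
  rw [isLinRec_iff] at *
  obtain ⟨p, hp, hpu⟩ := hu
  obtain ⟨q, hq, hqw⟩ := hw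
  refine ⟨p * q, mul_ne_zero hp hq, ?_⟩
  have h1 : (fun n => u n + w n) = u + w := rfl
  rw [h1, map_add, map_mul, Module.End.mul_apply, Module.End.mul_apply, hqw, map_zero, add_zero,
    ← Module.End.mul_apply, ← map_mul, mul_comm, map_mul, Module.End.mul_apply, hpu, map_zero]

theorem IsLinRec.const_mul {u : ℕ → L} (hu : IsLinRec u) (c : L) :
    IsLinRec fun n => c * u n := by
  rw [isLinRec_iff] at *
  obtain ⟨p, hp, hpu⟩ := hu
  refine ⟨p, hp, ?_⟩
  have h1 : (fun n => c * u n) = c • u := rfl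
  rw [h1, map_smul, hpu, smul_zero]

theorem IsLinRec.geom (γ : L) : IsLinRec fun n => γ ^ n := by
  rw [isLinRec_iff]
  refine ⟨X - C γ, X_sub_C_ne_zero γ, ?_⟩
  funext n
  rw [map_sub, aeval_X, aeval_C]
  simp only [LinearMap.sub_apply, Pi.sub_apply, Module.algebraMap_end_apply, Pi.smul_apply,
    smul_eq_mul, Pi.zero_apply]
  show γ ^ (n + 1) - γ * γ ^ n = 0
  ring

theorem IsLinRec.zero : IsLinRec fun _ => (0 : L) := by
  rw [isLinRec_iff]
  exact ⟨1, one_ne_zero, map_zero _⟩

theorem IsLinRec.sum {ι : Type*} (s : Finset ι) (u : ι → ℕ → L) (h : ∀ i ∈ s, IsLinRec (u i)) :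
    IsLinRec fun n => ∑ i ∈ s, u i n := by
  classical
  induction s using Finset.induction_on with
  | empty => simpa using IsLinRec.zero
  | insert a s ha ih =>
    simp only [Finset.sum_insert ha]
    exact (h a (Finset.mem_insert_self _ _)).add (ih fun i hi => h i (Finset.mem_insert_of_mem hi))

theorem IsLinRec.map {M : Type*} [Field M] (τ : L →+* M) {u : ℕ → L} (hu : IsLinRec u) :
    IsLinRec fun n => τ (u n) := by
  obtain ⟨E, hE⟩ := hu
  refine ⟨⟨E.order, fun i => τ (E.coeffs i)⟩, fun n => ?_⟩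
  show τ (u (n + E.order)) = ∑ i, τ (E.coeffs i) * τ (u (n + i))
  rw [hE n, map_sum]
  simp only [map_mul]

/-! ### closed form -/

/-- closed form of a linear recurrence over an algebraically closed field -/
def CF {k : Type*} [Field k] (u : ℕ → k) : Prop :=
  ∃ (k₀ : ℕ) (Γ : Finset k) (q : k → k[X]), (0 : k) ∉ Γ ∧
    ∀ n, k₀ ≤ n → u n = ∑ γ ∈ Γ, (q γ).eval (n : k) * γ ^ n

theorem CF.add {u w : ℕ → L} (hu : CF u) (hw : CF w) : CF (u + w) := by
  classical
  obtain ⟨k₀, Γ, q, h0, h⟩ := hu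
  obtain ⟨k₁, Δ, r, h0', h'⟩ := hw
  refine ⟨max k₀ k₁, Γ ∪ Δ, fun γ => (if γ ∈ Γ then q γ else 0) + (if γ ∈ Δ then r γ else 0), ?_,
    fun n hn => ?_⟩
  · simp [h0, h0']
  · show u n + w n = _
    rw [h n (le_trans (le_max_left _ _) hn), h' n (le_trans (le_max_right _ _) hn)]
    have e1 : ∑ γ ∈ Γ, (q γ).eval (n : L) * γ ^ n =
        ∑ γ ∈ Γ ∪ Δ, (if γ ∈ Γ then q γ else 0).eval (n : L) * γ ^ n := by
      rw [← Finset.sum_subset (Finset.subset_union_left (s₁ := Γ) (s₂ := Δ))]
      · refine Finset.sum_congr rfl fun γ hγ => ?_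
        rw [if_pos hγ]
      · intro γ _ hγ
        rw [if_neg hγ]
        simp
    have e2 : ∑ γ ∈ Δ, (r γ).eval (n : L) * γ ^ n =
        ∑ γ ∈ Γ ∪ Δ, (if γ ∈ Δ then r γ else 0).eval (n : L) * γ ^ n := by
      rw [← Finset.sum_subset (Finset.subset_union_right (s₁ := Γ) (s₂ := Δ))]
      · refine Finset.sum_congr rfl fun γ hγ => ?_
        rw [if_pos hγ]
      · intro γ _ hγ
        rw [if_neg hγ]
        simp
    rw [e1, e2, ← Finset.sum_add_distrib]
    refine Finset.sum_congr rfl fun γ _ => ?_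
    rw [eval_add]
    ring

/-- iterated differences and iterates of `shift - γ` -/
theorem fwdDiff_iter (γ : L) (hγ : γ ≠ 0) (u : ℕ → L) (m n : ℕ) :
    (fwdDiff (1 : ℕ))^[m] (fun n => u n / γ ^ n) n =
      ((aeval (shift L) ((X - C γ) ^ m)) u n) / γ ^ (n + m) := by
  induction m generalizing u n with
  | zero => simp
  | succ m ih =>
    rw [Function.iterate_succ_apply]
    have h1 : fwdDiff (1 : ℕ) (fun n => u n / γ ^ n) =
        fun n => (γ⁻¹ * ((aeval (shift L) (X - C γ)) u n)) / γ ^ n := by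
      funext n
      rw [fwdDiff, map_sub, aeval_X, aeval_C]
      simp only [LinearMap.sub_apply, Pi.sub_apply, Module.algebraMap_end_apply, Pi.smul_apply,
        smul_eq_mul]
      show u (n + 1) / γ ^ (n + 1) - u n / γ ^ n = γ⁻¹ * (u (n + 1) - γ * u n) / γ ^ n
      rw [pow_succ]
      field_simp
    have h2 : (fun n => (γ⁻¹ * ((aeval (shift L) (X - C γ)) u n)) / γ ^ n) =
        fun n => ((γ⁻¹ • (aeval (shift L) (X - C γ)) u) n) / γ ^ n := rfl
    rw [h1, h2, ih, map_smul, pow_succ (X - C γ) m, map_mul, Module.End.mul_apply]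
    simp only [Pi.smul_apply, smul_eq_mul]
    rw [← add_assoc, pow_succ]
    field_simp

/-- a sequence whose iterated difference vanishes is a polynomial -/
theorem poly_of_fwdDiff [CharZero L] (s : ℕ → L) (m : ℕ)
    (h : ∀ n, (fwdDiff (1 : ℕ))^[m] s n = 0) : ∃ q : L[X], ∀ n : ℕ, s n = q.eval (n : L) := by
  have hzero : ∀ i, m ≤ i → (fwdDiff (1 : ℕ))^[i] s 0 = 0 := by
    intro i hi
    obtain ⟨c, rfl⟩ := Nat.exists_eq_add_of_le hi
    rw [add_comm, Function.iterate_add_apply]
    have h1 : (fwdDiff (1 : ℕ))^[m] s = fun _ => 0 := funext h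
    rw [h1]
    have h2 : ∀ c, (fwdDiff (1 : ℕ))^[c] (fun _ => (0 : L)) = fun _ => 0 := by
      intro c
      induction c with
      | zero => rfl
      | succ c ih =>
        rw [Function.iterate_succ_apply]
        have h3 : fwdDiff (1 : ℕ) (fun _ => (0 : L)) = fun _ => 0 := by
          funext n
          simp [fwdDiff]
        rw [h3, ih]
    rw [h2]
  refine ⟨∑ i ∈ Finset.range m, C ((fwdDiff (1 : ℕ))^[i] s 0 / (i.factorial : L)) *
    descPochhammer L i, fun n => ?_⟩
  have h1 := shift_eq_sum_fwdDiff_iter (1 : ℕ) s n 0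
  simp only [zero_add, smul_eq_mul, mul_one] at h1
  rw [h1, eval_finsetSum]
  have h2 : ∀ i, (n.choose i) • (fwdDiff (1 : ℕ))^[i] s 0 =
      eval (n : L) (C ((fwdDiff (1 : ℕ))^[i] s 0 / (i.factorial : L)) * descPochhammer L i) := by
    intro i
    rw [eval_mul, eval_C, descPochhammer_eval_eq_descFactorial, Nat.descFactorial_eq_factorial_mul_choose,
      nsmul_eq_mul]
    push_cast
    have : (i.factorial : L) ≠ 0 := by exact_mod_cast Nat.factorial_ne_zero i
    field_simp
  simp only [h2]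
  -- compare the ranges
  rcases le_total m (n + 1) with hmn | hmn
  · symm
    apply Finset.sum_subset (Finset.range_mono hmn)
    intro i _ hi
    rw [← h2, hzero i (by simpa using hi), smul_zero]
  · apply Finset.sum_subset (Finset.range_mono hmn)
    intro i _ hi
    rw [← h2, Nat.choose_eq_zero_of_lt (by simpa using hi), zero_smul]

theorem cf_single [CharZero L] (γ : L) (m : ℕ) (u : ℕ → L)
    (h : (aeval (shift L) ((X - C γ) ^ m)) u = 0) : CF u := by
  classical
  by_cases hγ : γ = 0
  · subst hγ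
    refine ⟨m, ∅, fun _ => 0, by simp, fun n hn => ?_⟩
    rw [map_zero, sub_zero, map_pow, aeval_X] at h
    have h1 := congrFun h (n - m)
    rw [shift_pow] at h1
    rw [Nat.sub_add_cancel hn] at h1
    simpa using h1
  · obtain ⟨q, hq⟩ := poly_of_fwdDiff (fun n => u n / γ ^ n) m (fun n => by
      rw [fwdDiff_iter γ hγ, h]
      simp)
    refine ⟨0, {γ}, fun _ => q, by simpa using (Ne.symm hγ), fun n _ => ?_⟩
    rw [Finset.sum_singleton, ← hq n, div_mul_cancel₀ _ (pow_ne_zero _ hγ)]

theorem cf_prod [CharZero L] (s : Finset L) (m : L → ℕ) (u : ℕ → L)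
    (h : (aeval (shift L) (∏ γ ∈ s, (X - C γ) ^ m γ)) u = 0) : CF u := by
  classical
  induction s using Finset.induction_on generalizing u with
  | empty =>
    rw [Finset.prod_empty, map_one] at h
    have : u = 0 := h
    subst this
    exact ⟨0, ∅, fun _ => 0, by simp, fun n _ => by simp⟩
  | insert a s ha ih =>
    rw [Finset.prod_insert ha] at h
    have hcop : IsCoprime ((X - C a) ^ m a) (∏ γ ∈ s, (X - C γ) ^ m γ) := by
      apply IsCoprime.prod_right
      intro γ hγ
      apply IsCoprime.pow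
      apply isCoprime_X_sub_C_of_isUnit_sub
      rw [isUnit_iff_ne_zero, sub_ne_zero]
      rintro rfl
      exact ha hγ
    have h1 : u ∈ LinearMap.ker (aeval (shift L) ((X - C a) ^ m a * ∏ γ ∈ s, (X - C γ) ^ m γ)) := h
    rw [← sup_ker_aeval_eq_ker_aeval_mul_of_coprime _ hcop, Submodule.mem_sup] at h1
    obtain ⟨y, hy, z, hz, rfl⟩ := h1
    exact (cf_single a (m a) y hy).add (ih z hz)

theorem IsLinRec.cf [CharZero L] [IsAlgClosed L] {u : ℕ → L} (hu : IsLinRec u) : CF u := by
  classical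
  rw [isLinRec_iff] at hu
  obtain ⟨p, hp, hu⟩ := hu
  have hs := IsAlgClosed.splits p
  have h1 := hs.eq_prod_roots
  have h2 : (p.roots.map fun a => X - C a).prod = ∏ γ ∈ p.roots.toFinset,
      (X - C γ) ^ p.roots.count γ := by
    rw [Finset.prod_multiset_map_count]
  apply cf_prod p.roots.toFinset (fun γ => p.roots.count γ)
  rw [← h2]
  rw [h1, map_mul, Module.End.mul_apply, aeval_C, Module.algebraMap_end_apply] at hu
  have hl : p.leadingCoeff ≠ 0 := leadingCoeff_ne_zero.mpr hp
  exact (smul_eq_zero.mp hu).resolve_left hl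

end Pool.Agent.W235.RM
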