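import Pool.Agent.W235.RM.Curve
import Pool.Agent.H533R3.SL.Gm

/-!
Curves with Laurent coordinates give infinitely many sparse points and linear recurrences.
-/

set_option autoImplicit false

namespace Pool.Agent.W235.RM

open MvPolynomial IsDedekindDomain Pool.Agent.H159R3.Exp
open Pool.Agent.H458.Sp Pool.Agent.H533R3.SL
open scoped NumberField

theorem finite_zeros_base {k : Type*} [Field k] [CharZero k] {φ : k → k} (hφ : Laur φ) (b : ℕ)
    (hb : 2 ≤ b) (h0 : ∃ t, t ≠ 0 ∧ φ t ≠ 0) : {m : ℕ | φ ((b : k) ^ m) = 0}.Finite := by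
  obtain ⟨M, Q, h⟩ := hφ
  obtain ⟨t, ht, ht0⟩ := h0
  have hQ : Q ≠ 0 := by
    rintro rfl
    have := h t ht
    rw [Polynomial.eval_zero] at this
    exact mul_ne_zero ht0 (pow_ne_zero _ ht) this
  have hinj : Function.Injective (fun m : ℕ => (b : k) ^ m) := by
    intro m m' hm
    have h5 : ((b ^ m : ℕ) : k) = ((b ^ m' : ℕ) : k) := by
      push_cast; exact hm
    exact Nat.pow_right_injective hb (Nat.cast_injective h5)
  have hfin : {m : ℕ | (b : k) ^ m ∈ {x | Q.IsRoot x}}.Finite :=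
    (Polynomial.finite_setOfPred_isRoot hQ).preimage hinj.injOn
  refine hfin.subset ?_
  intro m hm
  change Q.eval ((b : k) ^ m) = 0
  have hb0 : (b : k) ≠ 0 := by
    have : b ≠ 0 := by omega
    exact_mod_cast this
  rw [← h _ (pow_ne_zero _ hb0), hm, zero_mul]

/-- The points of `V` outside `V'` over `L` which are `r`-sparse in base `b` with digits of house
at most `B`. -/
def sparsePoints {K : Type} [Field K] {ι κ : Type} {n : ℕ} (F : ι → MvPolynomial (Fin n) (𝓞 K))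
    (G : κ → MvPolynomial (Fin n) (𝓞 K)) (L : Type) [Field L] [NumberField L] [Algebra K L]
    (b r : ℕ) (B : ℝ) : Set (Fin n → L) :=
  {x | (∀ i, eval₂ ((algebraMap K L).comp (algebraMap (𝓞 K) K)) x (F i) = 0) ∧
    (∃ l, eval₂ ((algebraMap K L).comp (algebraMap (𝓞 K) K)) x (G l) ≠ 0) ∧ SparseAff b r B x}

/-- The points of `V` outside `V'` which are `r`-sparse in base `b` with digits of house at most
`B` are finite in number. -/
def SparseFinite {K : Type} [Field K] {ι κ : Type} {n : ℕ} (F : ι → MvPolynomial (Fin n) (𝓞 K))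
    (G : κ → MvPolynomial (Fin n) (𝓞 K)) : Prop :=
  ∀ (L : Type) [Field L] [NumberField L] [Algebra K L] (b r : ℕ) (B : ℝ), 2 ≤ b →
    (sparsePoints F G L b r B).Finite

theorem infinite_points {K : Type} [Field K] {ι κ : Type} {n : ℕ}
    (F : ι → MvPolynomial (Fin n) (𝓞 K)) (G : κ → MvPolynomial (Fin n) (𝓞 K))
    (L : Type) [Field L] [NumberField L] [Algebra K L] (v : L → Fin n → L)
    (hv : ∀ j, Laur fun t => v t j)
    (hF : ∀ i t, t ≠ 0 → eval₂ ((algebraMap K L).comp (algebraMap (𝓞 K) K)) (v t) (F i) = 0)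
    (hG : ∃ l, eval₂ ((algebraMap K L).comp (algebraMap (𝓞 K) K)) (v 1) (G l) ≠ 0)
    (hne : ∃ (k : ℕ) (j : Fin n), v (2 ^ k) j ≠ v 1 j) (b : ℕ) (hb : 2 ≤ b) :
    {x : Fin n → L | (∀ i, eval₂ ((algebraMap K L).comp (algebraMap (𝓞 K) K)) x (F i) = 0) ∧
    (∃ l, eval₂ ((algebraMap K L).comp (algebraMap (𝓞 K) K)) x (G l) ≠ 0) ∧
    ∃ k : ℕ, x = v ((b : L) ^ k)}.Infinite := by
  set ψ := (algebraMap K L).comp (algebraMap (𝓞 K) K)
  obtain ⟨l, hl⟩ := hG
  obtain ⟨k1, j1, hk1⟩ := hne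
  have hb0 : (b : L) ≠ 0 := by
    have : b ≠ 0 := by omega
    exact_mod_cast this
  have h1 : {k : ℕ | eval₂ ψ (v ((b : L) ^ k)) (G l) = 0}.Finite :=
    finite_zeros_base (Laur.eval₂ ψ v hv (G l)) b hb ⟨1, one_ne_zero, hl⟩
  have h2 : ∀ c : L, {k : ℕ | v ((b : L) ^ k) j1 = c}.Finite := by
    intro c
    have h3 : Laur (fun t => v t j1 + -c) := (hv j1).add (Laur.const _)
    refine (finite_zeros_base h3 b hb ?_).subset ?_
    · by_contra hcon
      push Not at hcon
      apply hk1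
      have h4 := hcon (2 ^ k1) (pow_ne_zero _ two_ne_zero)
      have h5 := hcon 1 one_ne_zero
      linear_combination h4 - h5
    · intro k hk
      have hk' : v ((b : L) ^ k) j1 = c := hk
      show v ((b : L) ^ k) j1 + -c = 0
      rw [hk']
      ring
  intro hfin
  apply h1.infinite_compl
  refine (hfin.biUnion fun x _ => h2 (x j1)).subset ?_
  intro k hk
  refine Set.mem_biUnion (x := v ((b : L) ^ k)) ⟨fun i => hF i _ (pow_ne_zero _ hb0), ⟨l, hk⟩,
    k, rfl⟩ ?_
  rfl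

theorem exists_den {L : Type} [Field L] [NumberField L] (s : Finset L) :
    ∃ D : ℕ, 1 ≤ D ∧ ∀ x ∈ s, ∃ w : 𝓞 L, algebraMap (𝓞 L) L w = (D : L) * x := by
  classical
  have : Algebra.IsAlgebraic ℤ L := by
    have h1 : Algebra.IsAlgebraic ℚ L := inferInstance
    exact IsFractionRing.comap_isAlgebraic_iff (A := ℤ) (K := ℚ) (C := L) |>.mpr h1
  obtain ⟨y, hy, h⟩ := Algebra.IsAlgebraic.exists_integral_multiples ℤ s
  refine ⟨y.natAbs, Int.natAbs_pos.mpr hy, fun x hx => ?_⟩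
  have h1 : IsIntegral ℤ ((y.natAbs : L) * x) := by
    have h2 := h x hx
    rw [zsmul_eq_mul] at h2
    rcases Int.natAbs_eq y with h3 | h3
    · have h4 : ((y.natAbs : ℕ) : L) = (y : L) := by
        conv_rhs => rw [h3]
        simp
      rw [h4]
      exact h2
    · have h4 : ((y.natAbs : ℕ) : L) = -(y : L) := by
        conv_rhs => rw [h3]
        simp
      rw [h4, neg_mul]
      exact h2.neg
  exact ⟨⟨_, h1⟩, rfl⟩

theorem not_sparseFinite {K : Type} [Field K] {ι κ : Type} {n : ℕ}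
    (F : ι → MvPolynomial (Fin n) (𝓞 K)) (G : κ → MvPolynomial (Fin n) (𝓞 K))
    (h : HasLaurent F G) : ¬ SparseFinite F G := by
  classical
  obtain ⟨L, _, _, _, v, hv, hF, hG, hne⟩ := h
  intro hfin
  obtain ⟨M, Q, hQ⟩ := Laur.common v hv
  set R : ℕ := Finset.univ.sup (fun j => (Q j).natDegree) with hR
  obtain ⟨D, hD, hDw⟩ := exists_den (Finset.univ.image fun q : Fin n × Fin (R + 1) =>
    (Q q.1).coeff (q.2 : ℕ))
  have hDw' : ∀ (j : Fin n) (l : Fin (R + 1)), ∃ w : 𝓞 L,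
      algebraMap (𝓞 L) L w = (D : L) * (Q j).coeff (l : ℕ) := fun j l =>
    hDw _ (Finset.mem_image.mpr ⟨(j, l), Finset.mem_univ _, rfl⟩)
  choose w hw using hDw'
  set b : ℕ := 2 * D with hb
  have hb2 : 2 ≤ b := by omega
  have hb0 : (b : L) ≠ 0 := by
    have : b ≠ 0 := by omega
    exact_mod_cast this
  set B : ℝ := ∑ q : Fin (R + 1) × Fin n, hs ((2 : 𝓞 L) * w q.2 q.1) with hB
  have hBle : ∀ (l : Fin (R + 1)) (j : Fin n), hs ((2 : 𝓞 L) * w j l) ≤ B := by
    intro l j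
    have h := Finset.single_le_sum (s := (Finset.univ : Finset (Fin (R + 1) × Fin n)))
      (f := fun q : Fin (R + 1) × Fin n => hs ((2 : 𝓞 L) * w q.2 q.1))
      (fun _ _ => hs_nonneg _) (Finset.mem_univ (l, j))
    exact h
  clear_value B
  clear hR
  refine (infinite_points F G L v hv hF hG hne b hb2) ((hfin L b (R + 1) B hb2).subset ?_)
  rintro x ⟨h1, h2, k, rfl⟩
  refine ⟨h1, h2, fun l => (k * l : ℤ) - (k * M : ℤ) - 1, fun l j => 2 * w j l, fun l j => ?_,
    fun j => ?_⟩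
  · exact hBle l j
  · rw [hQ _ (pow_ne_zero _ hb0) j, Polynomial.eval_eq_sum_range' (n := R + 1)
      (Nat.lt_succ_of_le (Finset.le_sup (f := fun j => (Q j).natDegree) (Finset.mem_univ j))),
      Finset.sum_range, Finset.sum_div]
    refine Finset.sum_congr rfl fun l _ => ?_
    rw [map_mul, hw, map_ofNat, zpow_sub₀ hb0, zpow_sub₀ hb0, zpow_one]
    have e1 : (b : L) ^ ((k : ℤ) * ((l : ℕ) : ℤ)) = ((b : L) ^ k) ^ (l : ℕ) := by
      rw [zpow_mul, zpow_natCast, zpow_natCast]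
    have e2 : (b : L) ^ ((k : ℤ) * (M : ℤ)) = ((b : L) ^ k) ^ M := by
      rw [zpow_mul, zpow_natCast, zpow_natCast]
    rw [e1, e2]
    have e3 : (b : L) = 2 * (D : L) := by
      rw [hb]
      push_cast
      ring
    have e4 : ((b : L) ^ k) ^ M ≠ 0 := pow_ne_zero _ (pow_ne_zero _ hb0)
    have hD0 : (D : L) ≠ 0 := by
      have : D ≠ 0 := by omega
      exact_mod_cast this
    field_simp
    rw [e3]
    ring

end Pool.Agent.W235.RM
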